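import Pool.Agent.helper37.CZ.SpecD

/-! # Row `ADK` of project cz: the additivity kernel -/

set_option autoImplicit false

open scoped Matrix Topology ComplexConjugate
open Filter

namespace Pool.Agent.CZ

theorem ADK_zz_left {η t : ℝ} (hη : 0 < η) (h : t ≤ -η) : zz η t = 1 := by
  unfold zz
  have h1 : (t + η) / (2 * η) ≤ 0 := div_nonpos_of_nonpos_of_nonneg (by linarith) (by linarith)
  have h2 : min 1 ((t + η) / (2 * η)) ≤ 0 := (min_le_right _ _).trans h1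
  rw [max_eq_left h2]
  simp

theorem ADK_zz_right {η t : ℝ} (hη : 0 < η) (h : η ≤ t) : zz η t = -1 := by
  unfold zz
  have h1 : 1 ≤ (t + η) / (2 * η) := by rw [le_div_iff₀ (by linarith)]; linarith
  rw [min_eq_left h1, max_eq_right (by norm_num : (0 : ℝ) ≤ 1), Complex.ofReal_one, mul_one,
    Complex.exp_pi_mul_I]

theorem ADK_QQ_ne {η t : ℝ} (hη : 0 < η) (h : QQ η t ≠ 0) : -η < t := by
  by_contra hcon
  rw [not_lt] at hcon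
  apply h
  unfold QQ
  rw [ADK_zz_left hη hcon]
  simp

theorem ADK_PP_ne {η t : ℝ} (hη : 0 < η) (h : PP η t ≠ 0) : t < η := by
  by_contra hcon
  rw [not_lt] at hcon
  apply h
  unfold PP
  rw [ADK_zz_right hη hcon]
  simp

theorem ADK_zz_cont (η : ℝ) : Continuous (zz η) := by
  unfold zz
  fun_prop

theorem ADK_PP_cont (η : ℝ) : Continuous (PP η) := by
  unfold PP
  exact (continuous_const.add (ADK_zz_cont η)).div_const _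

theorem ADK_QQ_cont (η : ℝ) : Continuous (QQ η) := by
  unfold QQ
  exact (continuous_const.sub (ADK_zz_cont η)).div_const _

/-- the kernel -/
noncomputable def ADK_U {X : Type} (ξ : X → ℝ → ℝ) (δ₀ : ℝ) : Unit → Bool → X → ℝ → ℝ → ℂ :=
  fun _ b x τ τ' => bif b then QQ (δ₀ / 3) (τ' + ξ x τ) * PP (δ₀ / 3) (τ' + ξ x (τ + 1))
      else PP (δ₀ / 3) (τ + ξ x τ - τ') * QQ (δ₀ / 3) (τ + 1 + ξ x (τ + 1) - τ')

theorem ADK_bd {X : Type} [TopologicalSpace X] [CompactSpace X] (ξ : X → ℝ → ℝ)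
    (hc : Continuous (fun p : X × ℝ => ξ p.1 p.2)) (R : ℝ) :
    ∃ B : ℝ, 0 ≤ B ∧ ∀ x τ, |τ| ≤ R → |ξ x τ| ≤ B := by
  obtain ⟨B, hB⟩ := (isCompact_univ.prod (isCompact_Icc (a := -R) (b := R))).exists_bound_of_continuousOn
    hc.continuousOn
  refine ⟨max B 0, le_max_right _ _, fun x τ h => ?_⟩
  have h1 := hB (x, τ) ⟨Set.mem_univ _, abs_le.1 h⟩
  rw [Real.norm_eq_abs] at h1
  exact h1.trans (le_max_left _ _)

theorem ADK_dec (f : ℝ → ℝ) (δ : ℝ) (hf : ∀ τ, δ ≤ f τ - f (τ + 1)) (n : ℕ) (τ : ℝ) :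
    f (τ + n) ≤ f τ - n * δ := by
  induction n with
  | zero => simp
  | succ n ih =>
    have h := hf (τ + n)
    have e : τ + ((n + 1 : ℕ) : ℝ) = τ + n + 1 := by push_cast; ring
    rw [e]
    push_cast
    linarith

theorem ADK_loc {X : Type} [TopologicalSpace X] [CompactSpace X] (ξ : X → ℝ → ℝ) (δ₀ : ℝ)
    (hδ : 0 < δ₀) (hc : Continuous (fun p : X × ℝ => ξ p.1 p.2))
    (hd : ∀ x τ, δ₀ ≤ ξ x τ - ξ x (τ + 1)) (R : ℝ) :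
    ∃ R' : ℝ, ∀ x τ, (|τ| ≤ R → |ξ x τ| ≤ R' ∧ |ξ x (τ + 1)| ≤ R') ∧
      (R' < τ → ξ x τ < -R) ∧ (τ < -R' → R < ξ x (τ + 1)) := by
  obtain ⟨B, hB0, hB⟩ := ADK_bd ξ hc (R + 1)
  obtain ⟨B1, hB10, hB1⟩ := ADK_bd ξ hc 1
  refine ⟨max B (max 1 (1 + (B1 + |R| + 1) / δ₀)), fun x τ => ⟨fun h => ⟨?_, ?_⟩, fun h => ?_, fun h => ?_⟩⟩
  · exact (hB x τ (h.trans (by linarith))).trans (le_max_left _ _)
  · refine (hB x (τ + 1) ?_).trans (le_max_left _ _)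
    calc |τ + 1| ≤ |τ| + |1| := abs_add_le _ _
      _ ≤ R + 1 := by rw [abs_one]; linarith
  · have h1 : 1 < τ := ((le_max_left _ _).trans (le_max_right _ _)).trans_lt h
    have h2 : 1 + (B1 + |R| + 1) / δ₀ < τ := ((le_max_right _ _).trans (le_max_right _ _)).trans_lt h
    have hn : ((⌊τ⌋₊ : ℕ) : ℝ) ≤ τ := Nat.floor_le (by linarith)
    have hn2 : τ < (⌊τ⌋₊ : ℝ) + 1 := Nat.lt_floor_add_one τ
    have h3 := ADK_dec (ξ x) δ₀ (hd x) ⌊τ⌋₊ (τ - ⌊τ⌋₊)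
    rw [sub_add_cancel] at h3
    have h4 := hB1 x (τ - ⌊τ⌋₊) (by rw [abs_le]; constructor <;> linarith)
    have h5 : (B1 + |R| + 1) / δ₀ < (⌊τ⌋₊ : ℝ) := by linarith
    rw [div_lt_iff₀ hδ] at h5
    have h6 := le_abs_self (ξ x (τ - ⌊τ⌋₊))
    have h7 := le_abs_self R
    linarith
  · have h1 : 1 < -τ := by
      have := (le_max_left (1 : ℝ) (1 + (B1 + |R| + 1) / δ₀)).trans (le_max_right B _)
      linarith
    have h2 : 1 + (B1 + |R| + 1) / δ₀ < -τ := by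
      have := (le_max_right (1 : ℝ) (1 + (B1 + |R| + 1) / δ₀)).trans (le_max_right B _)
      linarith
    have hn : ((⌊-τ⌋₊ : ℕ) : ℝ) ≤ -τ := Nat.floor_le (by linarith)
    have hn2 : -τ < (⌊-τ⌋₊ : ℝ) + 1 := Nat.lt_floor_add_one (-τ)
    have h3 := ADK_dec (ξ x) δ₀ (hd x) ⌊-τ⌋₊ (τ + 1)
    have h4 := hB1 x (τ + 1 + ⌊-τ⌋₊) (by rw [abs_le]; constructor <;> linarith)
    have h5 : (B1 + |R| + 1) / δ₀ < (⌊-τ⌋₊ : ℝ) := by linarith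
    rw [div_lt_iff₀ hδ] at h5
    have h6 := neg_abs_le (ξ x (τ + 1 + ⌊-τ⌋₊))
    have h7 := le_abs_self R
    linarith

theorem ADK_KU {X : Type} [TopologicalSpace X] [CompactSpace X] (ξ : X → ℝ → ℝ) (δ₀ : ℝ)
    (hδ : 0 < δ₀) (hc : Continuous (fun p : X × ℝ => ξ p.1 p.2))
    (hd : ∀ x τ, δ₀ ≤ ξ x τ - ξ x (τ + 1) ∧ ξ x τ - ξ x (τ + 1) ≤ 1 - δ₀) (R : ℝ) :
    ∃ R' : ℝ, ∀ q q' x τ τ', (|τ| ≤ R → R' < |τ'| → ADK_U ξ δ₀ q q' x τ τ' = 0) ∧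
      (|τ'| ≤ R → R' < |τ| → ADK_U ξ δ₀ q q' x τ τ' = 0) := by
  have hη : 0 < δ₀ / 3 := by linarith
  have hc2 : Continuous (fun p : X × ℝ => -(p.2 + ξ p.1 p.2)) := (continuous_snd.add hc).neg
  obtain ⟨R1, h1⟩ := ADK_loc ξ δ₀ hδ hc (fun x τ => (hd x τ).1) (|R| + δ₀)
  obtain ⟨R2, h2⟩ := ADK_loc (fun x τ => -(τ + ξ x τ)) δ₀ hδ hc2 (fun x τ => by
    have := (hd x τ).2
    show δ₀ ≤ -(τ + ξ x τ) - -(τ + 1 + ξ x (τ + 1))
    linarith) (|R| + δ₀)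
  refine ⟨max R1 R2 + δ₀, fun q q' x τ τ' => ⟨fun hτ hτ' => ?_, fun hτ' hτ => ?_⟩⟩
  · have hτR : |τ| ≤ |R| + δ₀ := hτ.trans ((le_abs_self R).trans (by linarith))
    by_contra hne
    cases q' with
    | true =>
      have hne' : QQ (δ₀ / 3) (τ' + ξ x τ) * PP (δ₀ / 3) (τ' + ξ x (τ + 1)) ≠ 0 := hne
      have h3 := ADK_QQ_ne hη (left_ne_zero_of_mul hne')
      have h4 := ADK_PP_ne hη (right_ne_zero_of_mul hne')
      obtain ⟨⟨h5, h6⟩⟩ := And.intro ((h1 x τ).1 hτR) trivial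
      rw [abs_le] at h5 h6
      have h7 : |τ'| ≤ R1 + δ₀ := by rw [abs_le]; constructor <;> linarith
      have h8 := le_max_left R1 R2
      linarith
    | false =>
      have hne' : PP (δ₀ / 3) (τ + ξ x τ - τ') * QQ (δ₀ / 3) (τ + 1 + ξ x (τ + 1) - τ') ≠ 0 := hne
      have h3 := ADK_PP_ne hη (left_ne_zero_of_mul hne')
      have h4 := ADK_QQ_ne hη (right_ne_zero_of_mul hne')
      have h5 := ((h2 x τ).1 hτR).1
      have h6 := ((h2 x τ).1 hτR).2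
      rw [abs_neg, abs_le] at h5 h6
      have h7 : |τ'| ≤ R2 + δ₀ := by rw [abs_le]; constructor <;> linarith
      have h8 := le_max_right R1 R2
      linarith
  · by_contra hne
    have hb := abs_le.1 hτ'
    have hRR := le_abs_self R
    rcases lt_abs.1 hτ with hτ | hτ
    · cases q' with
      | true =>
        have hne' : QQ (δ₀ / 3) (τ' + ξ x τ) * PP (δ₀ / 3) (τ' + ξ x (τ + 1)) ≠ 0 := hne
        have h3 := ADK_QQ_ne hη (left_ne_zero_of_mul hne')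
        have h8 := le_max_left R1 R2
        have h5 := (h1 x τ).2.1 (by linarith)
        linarith [hb.1, hb.2]
      | false =>
        have hne' : PP (δ₀ / 3) (τ + ξ x τ - τ') * QQ (δ₀ / 3) (τ + 1 + ξ x (τ + 1) - τ') ≠ 0 := hne
        have h3 := ADK_PP_ne hη (left_ne_zero_of_mul hne')
        have h8 := le_max_right R1 R2
        have h5 := (h2 x τ).2.1 (by linarith)
        linarith [hb.1, hb.2]
    · cases q' with
      | true =>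
        have hne' : QQ (δ₀ / 3) (τ' + ξ x τ) * PP (δ₀ / 3) (τ' + ξ x (τ + 1)) ≠ 0 := hne
        have h3 := ADK_PP_ne hη (right_ne_zero_of_mul hne')
        have h8 := le_max_left R1 R2
        have h5 := (h1 x τ).2.2 (by linarith)
        linarith [hb.1, hb.2]
      | false =>
        have hne' : PP (δ₀ / 3) (τ + ξ x τ - τ') * QQ (δ₀ / 3) (τ + 1 + ξ x (τ + 1) - τ') ≠ 0 := hne
        have h3 := ADK_QQ_ne hη (right_ne_zero_of_mul hne')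
        have h8 := le_max_right R1 R2
        have h5 := (h2 x τ).2.2 (by linarith)
        linarith [hb.1, hb.2]

theorem ADK_fsum (hF : FSB_stmt) (z : ℂ) (hz : ‖z‖ = 1) (τ₀ : ℝ) (h : IsLift z τ₀) (G : ℝ → ℂ) :
    fsum z G = ∑' k : ℤ, G (τ₀ - k) := by
  rw [((hF z hz).2 τ₀ h).2 G, ← (Equiv.neg ℤ).tsum_eq]
  refine tsum_congr fun k => ?_
  rw [Equiv.neg_apply, Int.cast_neg, sub_eq_add_neg]

theorem ADK_lift (hF : FSB_stmt) (z : ℂ) (hz : ‖z‖ = 1) (τ₀ : ℝ) (h : IsLift z τ₀) (τ : ℝ)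
    (hτ : IsLift z τ) : ∃ k : ℤ, τ = τ₀ - k := by
  obtain ⟨k, hk⟩ := (((hF z hz).2 τ₀ h).1 τ).1 hτ
  exact ⟨-k, by rw [hk, Int.cast_neg, sub_neg_eq_add]⟩

theorem ADK_all (hF : FSB_stmt) (hU : UNI_stmt) {X : Type} (z₁ z₂ : ℂ) (hz₁ : ‖z₁‖ = 1)
    (hz₂ : ‖z₂‖ = 1) (ξ : X → ℝ → ℝ) (δ₀ : ℝ) (hδ : 0 < δ₀)
    (hd : ∀ x τ, δ₀ ≤ ξ x τ - ξ x (τ + 1) ∧ ξ x τ - ξ x (τ + 1) ≤ 1 - δ₀) (x : X) :
    ∃ (τ₁ τ₂ : ℝ) (Ua Ub : ℤ → ℤ → ℂ), IsLift z₁ τ₁ ∧ IsLift z₂ τ₂ ∧ IsLift (z₁ * z₂) (τ₁ + τ₂) ∧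
      (∀ l a : ℤ, ADK_U ξ δ₀ () true x (τ₁ + τ₂ - l) (τ₁ - a) = Ua l a) ∧
      (∀ l b : ℤ, ADK_U ξ δ₀ () false x (τ₁ + τ₂ - l) (τ₂ - b) = Ub l b) ∧
      (∀ l, ∑' a : ℤ, Ua l a * conj (Ua l a) + ∑' b : ℤ, Ub l b * conj (Ub l b) = 1) ∧
      (∀ l l', l ≠ l' → ∑' a : ℤ, Ua l a * conj (Ua l' a) + ∑' b : ℤ, Ub l b * conj (Ub l' b) = 0) ∧
      (∀ a, ∑' l : ℤ, Ua l a * conj (Ua l a) = 1) ∧
      (∀ a a', a ≠ a' → ∑' l : ℤ, Ua l a * conj (Ua l a') = 0) ∧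
      (∀ b, ∑' l : ℤ, Ub l b * conj (Ub l b) = 1) ∧
      (∀ b b', b ≠ b' → ∑' l : ℤ, Ub l b * conj (Ub l b') = 0) ∧
      (∀ a b, ∑' l : ℤ, Ua l a * conj (Ub l b) = 0) ∧ (∀ a b, ∑' l : ℤ, Ub l b * conj (Ua l a) = 0) := by
  set τ₁ : ℝ := Complex.arg z₁ / (2 * Real.pi) with hτ₁
  set τ₂ : ℝ := Complex.arg z₂ / (2 * Real.pi) with hτ₂
  have hl₁ : IsLift z₁ τ₁ := (hF z₁ hz₁).1
  have hl₂ : IsLift z₂ τ₂ := (hF z₂ hz₂).1
  have hl : IsLift (z₁ * z₂) (τ₁ + τ₂) := by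
    unfold IsLift at hl₁ hl₂ ⊢
    rw [← hl₁, ← hl₂, ← Complex.exp_add]
    congr 1
    push_cast
    ring
  set ξs : ℤ → ℝ := fun l => τ₁ + ξ x (τ₁ + τ₂ - l) with hξs
  have hinc : ∀ l : ℤ, δ₀ ≤ ξs l - ξs (l - 1) ∧ ξs l - ξs (l - 1) ≤ 1 - δ₀ := by
    intro l
    have h1 := hd x (τ₁ + τ₂ - l)
    have e : τ₁ + τ₂ - ((l - 1 : ℤ) : ℝ) = τ₁ + τ₂ - l + 1 := by push_cast; ring
    rw [hξs]
    simp only
    rw [e]
    constructor <;> linarith [h1.1, h1.2]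
  refine ⟨τ₁, τ₂, fun l a => QQ (δ₀ / 3) (ξs l - a) * PP (δ₀ / 3) (ξs (l - 1) - a),
    fun l b => PP (δ₀ / 3) (b - l + ξs l) * QQ (δ₀ / 3) (b - l + 1 + ξs (l - 1)), hl₁, hl₂, hl, ?_, ?_,
    hU δ₀ hδ ξs hinc _ _ (fun _ _ => rfl) (fun _ _ => rfl)⟩
  · intro l a
    have e1 : τ₁ - a + ξ x (τ₁ + τ₂ - l) = ξs l - a := by rw [hξs]; ring
    have e2 : τ₁ - a + ξ x (τ₁ + τ₂ - l + 1) = ξs (l - 1) - a := by
      have e : τ₁ + τ₂ - ((l - 1 : ℤ) : ℝ) = τ₁ + τ₂ - l + 1 := by push_cast; ring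
      rw [hξs]
      simp only
      rw [e]
      ring
    show QQ (δ₀ / 3) (τ₁ - a + ξ x (τ₁ + τ₂ - l)) * PP (δ₀ / 3) (τ₁ - a + ξ x (τ₁ + τ₂ - l + 1)) = _
    rw [e1, e2]
  · intro l b
    have e1 : τ₁ + τ₂ - l + ξ x (τ₁ + τ₂ - l) - (τ₂ - b) = b - l + ξs l := by rw [hξs]; ring
    have e2 : τ₁ + τ₂ - l + 1 + ξ x (τ₁ + τ₂ - l + 1) - (τ₂ - b) = b - l + 1 + ξs (l - 1) := by
      have e : τ₁ + τ₂ - ((l - 1 : ℤ) : ℝ) = τ₁ + τ₂ - l + 1 := by push_cast; ring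
      rw [hξs]
      simp only
      rw [e]
      ring
    show PP (δ₀ / 3) (τ₁ + τ₂ - l + ξ x (τ₁ + τ₂ - l) - (τ₂ - b)) *
      QQ (δ₀ / 3) (τ₁ + τ₂ - l + 1 + ξ x (τ₁ + τ₂ - l + 1) - (τ₂ - b)) = _
    rw [e1, e2]

theorem ADK (h1 : FSB_stmt) (h2 : UNI_stmt) : ADK_stmt := by
  intro X _ _ α w₁ w₂ h₁ h₂ ξ δ₀ hw₁ hw₂ hδ hc hinv hd
  change Kern α (fun _ : Unit => w₁ * w₂) (fun _ => h₁ + h₂) (fun b : Bool => bif b then w₁ else w₂)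
    (fun b => bif b then h₁ else h₂) (ADK_U ξ δ₀)
  have hn : ∀ x, ‖w₁ x * w₂ x‖ = 1 := fun x => by rw [norm_mul, hw₁.1, hw₂.1, mul_one]
  refine ⟨?_, ?_, ADK_KU ξ δ₀ hδ hc hd, ?_, ?_, ?_, ?_⟩
  · intro q q'
    have c1 : Continuous (fun p : X × ℝ × ℝ => ξ p.1 p.2.1) :=
      hc.comp (continuous_fst.prodMk (continuous_fst.comp continuous_snd))
    have c2 : Continuous (fun p : X × ℝ × ℝ => ξ p.1 (p.2.1 + 1)) :=
      hc.comp (continuous_fst.prodMk ((continuous_fst.comp continuous_snd).add continuous_const))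
    have c3 : Continuous (fun p : X × ℝ × ℝ => p.2.1) := continuous_fst.comp continuous_snd
    have c4 : Continuous (fun p : X × ℝ × ℝ => p.2.2) := continuous_snd.comp continuous_snd
    cases q' with
    | true =>
      exact ((ADK_QQ_cont _).comp (c4.add c1)).mul ((ADK_PP_cont _).comp (c4.add c2))
    | false =>
      exact ((ADK_PP_cont _).comp ((c3.add c1).sub c4)).mul
        ((ADK_QQ_cont _).comp (((c3.add continuous_const).add c2).sub c4))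
  · intro q q' x τ τ' _ _
    have e1 : ξ (α x) (τ + (h₁ + h₂) x) = ξ x τ - h₁ x := hinv x τ
    have e2 : ξ (α x) (τ + (h₁ + h₂) x + 1) = ξ x (τ + 1) - h₁ x := by
      rw [← hinv x (τ + 1)]
      congr 1
      rw [ContinuousMap.add_apply]
      ring
    cases q' with
    | true =>
      show QQ (δ₀ / 3) (τ' + h₁ x + ξ (α x) (τ + (h₁ + h₂) x)) *
        PP (δ₀ / 3) (τ' + h₁ x + ξ (α x) (τ + (h₁ + h₂) x + 1)) =
        QQ (δ₀ / 3) (τ' + ξ x τ) * PP (δ₀ / 3) (τ' + ξ x (τ + 1))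
      rw [e1, e2]
      congr 2 <;> ring
    | false =>
      show PP (δ₀ / 3) (τ + (h₁ + h₂) x + ξ (α x) (τ + (h₁ + h₂) x) - (τ' + h₂ x)) *
        QQ (δ₀ / 3) (τ + (h₁ + h₂) x + 1 + ξ (α x) (τ + (h₁ + h₂) x + 1) - (τ' + h₂ x)) =
        PP (δ₀ / 3) (τ + ξ x τ - τ') * QQ (δ₀ / 3) (τ + 1 + ξ x (τ + 1) - τ')
      rw [e1, e2, ContinuousMap.add_apply]
      congr 2 <;> ring
  · intro q x τ hτ
    obtain ⟨τ₁, τ₂, Ua, Ub, hl₁, hl₂, hl, eUa, eUb, r1, r0, ca1, ca0, cb1, cb0, cab, cba⟩ :=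
      ADK_all h1 h2 (w₁ x) (w₂ x) (hw₁.1 x) (hw₂.1 x) ξ δ₀ hδ hd x
    obtain ⟨l, rfl⟩ := ADK_lift h1 _ (hn x) _ hl τ hτ
    rw [Fintype.sum_bool]
    show fsum (w₁ x) (fun τ' => ADK_U ξ δ₀ () true x (τ₁ + τ₂ - l) τ' *
        conj (ADK_U ξ δ₀ () true x (τ₁ + τ₂ - l) τ')) +
      fsum (w₂ x) (fun τ' => ADK_U ξ δ₀ () false x (τ₁ + τ₂ - l) τ' *
        conj (ADK_U ξ δ₀ () false x (τ₁ + τ₂ - l) τ')) = 1
    rw [ADK_fsum h1 _ (hw₁.1 x) τ₁ hl₁, ADK_fsum h1 _ (hw₂.1 x) τ₂ hl₂]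
    simp only [eUa, eUb]
    exact r1 l
  · intro q q₁ x τ τ' hτ hτ' hne
    obtain ⟨τ₁, τ₂, Ua, Ub, hl₁, hl₂, hl, eUa, eUb, r1, r0, ca1, ca0, cb1, cb0, cab, cba⟩ :=
      ADK_all h1 h2 (w₁ x) (w₂ x) (hw₁.1 x) (hw₂.1 x) ξ δ₀ hδ hd x
    obtain ⟨l, rfl⟩ := ADK_lift h1 _ (hn x) _ hl τ hτ
    obtain ⟨l', rfl⟩ := ADK_lift h1 _ (hn x) _ hl τ' hτ'
    have hll : l ≠ l' := by
      rintro rfl
      rcases hne with h | h
      · exact h rfl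
      · exact h rfl
    rw [Fintype.sum_bool]
    show fsum (w₁ x) (fun τ' => ADK_U ξ δ₀ () true x (τ₁ + τ₂ - l) τ' *
        conj (ADK_U ξ δ₀ () true x (τ₁ + τ₂ - l') τ')) +
      fsum (w₂ x) (fun τ' => ADK_U ξ δ₀ () false x (τ₁ + τ₂ - l) τ' *
        conj (ADK_U ξ δ₀ () false x (τ₁ + τ₂ - l') τ')) = 0
    rw [ADK_fsum h1 _ (hw₁.1 x) τ₁ hl₁, ADK_fsum h1 _ (hw₂.1 x) τ₂ hl₂]
    simp only [eUa, eUb]
    exact r0 l l' hll
  · intro q' x τ' hτ'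
    obtain ⟨τ₁, τ₂, Ua, Ub, hl₁, hl₂, hl, eUa, eUb, r1, r0, ca1, ca0, cb1, cb0, cab, cba⟩ :=
      ADK_all h1 h2 (w₁ x) (w₂ x) (hw₁.1 x) (hw₂.1 x) ξ δ₀ hδ hd x
    rw [Fintype.sum_unique]
    cases q' with
    | true =>
      obtain ⟨a, rfl⟩ := ADK_lift h1 _ (hw₁.1 x) _ hl₁ τ' hτ'
      show fsum (w₁ x * w₂ x) (fun τ => ADK_U ξ δ₀ () true x τ (τ₁ - a) *
        conj (ADK_U ξ δ₀ () true x τ (τ₁ - a))) = 1
      rw [ADK_fsum h1 _ (hn x) _ hl]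
      simp only [eUa]
      exact ca1 a
    | false =>
      obtain ⟨b, rfl⟩ := ADK_lift h1 _ (hw₂.1 x) _ hl₂ τ' hτ'
      show fsum (w₁ x * w₂ x) (fun τ => ADK_U ξ δ₀ () false x τ (τ₂ - b) *
        conj (ADK_U ξ δ₀ () false x τ (τ₂ - b))) = 1
      rw [ADK_fsum h1 _ (hn x) _ hl]
      simp only [eUb]
      exact cb1 b
  · intro q' q₁' x τ' τ₁' hτ' hτ₁' hne
    obtain ⟨τ₁, τ₂, Ua, Ub, hl₁, hl₂, hl, eUa, eUb, r1, r0, ca1, ca0, cb1, cb0, cab, cba⟩ :=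
      ADK_all h1 h2 (w₁ x) (w₂ x) (hw₁.1 x) (hw₂.1 x) ξ δ₀ hδ hd x
    rw [Fintype.sum_unique]
    cases q' with
    | true =>
      obtain ⟨a, rfl⟩ := ADK_lift h1 _ (hw₁.1 x) _ hl₁ τ' hτ'
      cases q₁' with
      | true =>
        obtain ⟨a', rfl⟩ := ADK_lift h1 _ (hw₁.1 x) _ hl₁ τ₁' hτ₁'
        have haa : a ≠ a' := by
          rintro rfl
          rcases hne with h | h
          · exact h rfl
          · exact h rfl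
        show fsum (w₁ x * w₂ x) (fun τ => ADK_U ξ δ₀ () true x τ (τ₁ - a) *
          conj (ADK_U ξ δ₀ () true x τ (τ₁ - a'))) = 0
        rw [ADK_fsum h1 _ (hn x) _ hl]
        simp only [eUa]
        exact ca0 a a' haa
      | false =>
        obtain ⟨b, rfl⟩ := ADK_lift h1 _ (hw₂.1 x) _ hl₂ τ₁' hτ₁'
        show fsum (w₁ x * w₂ x) (fun τ => ADK_U ξ δ₀ () true x τ (τ₁ - a) *
          conj (ADK_U ξ δ₀ () false x τ (τ₂ - b))) = 0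
        rw [ADK_fsum h1 _ (hn x) _ hl]
        simp only [eUa, eUb]
        exact cab a b
    | false =>
      obtain ⟨b, rfl⟩ := ADK_lift h1 _ (hw₂.1 x) _ hl₂ τ' hτ'
      cases q₁' with
      | true =>
        obtain ⟨a, rfl⟩ := ADK_lift h1 _ (hw₁.1 x) _ hl₁ τ₁' hτ₁'
        show fsum (w₁ x * w₂ x) (fun τ => ADK_U ξ δ₀ () false x τ (τ₂ - b) *
          conj (ADK_U ξ δ₀ () true x τ (τ₁ - a))) = 0
        rw [ADK_fsum h1 _ (hn x) _ hl]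
        simp only [eUa, eUb]
        exact cba a b
      | false =>
        obtain ⟨b', rfl⟩ := ADK_lift h1 _ (hw₂.1 x) _ hl₂ τ₁' hτ₁'
        have hbb : b ≠ b' := by
          rintro rfl
          rcases hne with h | h
          · exact h rfl
          · exact h rfl
        show fsum (w₁ x * w₂ x) (fun τ => ADK_U ξ δ₀ () false x τ (τ₂ - b) *
          conj (ADK_U ξ δ₀ () false x τ (τ₂ - b'))) = 0
        rw [ADK_fsum h1 _ (hn x) _ hl]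
        simp only [eUb]
        exact cb0 b b' hbb

end Pool.Agent.CZ
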