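import Pool.Agent.helper37.CZ.Spec

/-! # Row `NEW` of project cz: Newton iteration for idempotents -/

set_option autoImplicit false

open scoped Topology
open Filter

namespace Pool.Agent.CZ

/-- the Newton iteration -/
def NEW_it {B : Type} [NormedRing B] (a : B) : ℕ → B
  | 0 => a
  | n + 1 => 3 * (NEW_it a n * NEW_it a n) - 2 * (NEW_it a n * NEW_it a n * NEW_it a n)

theorem NEW_y {B : Type} [NormedRing B] (a : B) :
    (3 * (a * a) - 2 * (a * a * a)) - (3 * (a * a) - 2 * (a * a * a)) * (3 * (a * a) - 2 * (a * a * a)) =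
      3 * ((a - a * a) * (a - a * a)) + 4 * ((a - a * a) * (a - a * a) * (a - a * a)) := by
  noncomm_ring

theorem NEW_step {B : Type} [NormedRing B] (a : B) :
    (3 * (a * a) - 2 * (a * a * a)) - a = 2 * (a * (a - a * a)) - (a - a * a) := by
  noncomm_ring

theorem NEW_norm_two {B : Type} [NormedRing B] (x : B) : ‖2 * x‖ ≤ 2 * ‖x‖ := by
  rw [two_mul]
  linarith [norm_add_le x x]

theorem NEW_norm_three {B : Type} [NormedRing B] (x : B) : ‖3 * x‖ ≤ 3 * ‖x‖ := by
  have e : (3 : B) * x = x + x + x := by noncomm_ring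
  rw [e]
  linarith [norm_add_le (x + x) x, norm_add_le x x]

theorem NEW_norm_four {B : Type} [NormedRing B] (x : B) : ‖4 * x‖ ≤ 4 * ‖x‖ := by
  have e : (4 : B) * x = x + x + x + x := by noncomm_ring
  rw [e]
  linarith [norm_add_le (x + x + x) x, norm_add_le (x + x) x, norm_add_le x x]

theorem NEW_half {B : Type} [NormedRing B] (y : B) (hy : ‖y‖ ≤ 1 / 14) :
    ‖3 * (y * y) + 4 * (y * y * y)‖ ≤ ‖y‖ / 2 := by
  have h1 := NEW_norm_three (y * y)
  have h2 := NEW_norm_four (y * y * y)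
  have h3 : ‖y * y‖ ≤ ‖y‖ * ‖y‖ := norm_mul_le _ _
  have h4 : ‖y * y * y‖ ≤ ‖y‖ * ‖y‖ * ‖y‖ :=
    (norm_mul_le _ _).trans (mul_le_mul_of_nonneg_right h3 (norm_nonneg _))
  have h5 := norm_nonneg y
  have h6 : ‖y‖ * ‖y‖ ≤ ‖y‖ * (1 / 14) := mul_le_mul_of_nonneg_left hy h5
  have h7 : ‖y‖ * ‖y‖ * ‖y‖ ≤ ‖y‖ * (1 / 14) := by
    calc ‖y‖ * ‖y‖ * ‖y‖ ≤ ‖y‖ * ‖y‖ * 1 :=
          mul_le_mul_of_nonneg_left (hy.trans (by norm_num)) (by positivity)
      _ ≤ ‖y‖ * (1 / 14) := by rw [mul_one]; exact h6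
  calc ‖3 * (y * y) + 4 * (y * y * y)‖ ≤ ‖3 * (y * y)‖ + ‖4 * (y * y * y)‖ := norm_add_le _ _
    _ ≤ 3 * (‖y‖ * (1 / 14)) + 4 * (‖y‖ * (1 / 14)) := by linarith
    _ = ‖y‖ / 2 := by ring

theorem NEW : NEW_stmt := by
  intro B _ _ M ε hε
  set K : ℝ := 2 * max M 0 + 3 with hK
  have hM0 : 0 ≤ max M 0 := le_max_right _ _
  have hKpos : 0 < K := by rw [hK]; linarith
  set η : ℝ := min ε 1 with hη
  have hηpos : 0 < η := lt_min hε one_pos
  set δ : ℝ := min (1 / 14) (η / (2 * K)) with hδ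
  have hδpos : 0 < δ := lt_min (by norm_num) (by positivity)
  have hδ1 : δ ≤ 1 / 14 := min_le_left _ _
  have hδ2 : 2 * K * δ ≤ η := by
    have h := min_le_right (1 / 14 : ℝ) (η / (2 * K))
    rw [← hδ, le_div_iff₀ (by positivity)] at h
    linarith
  refine ⟨δ, hδpos, ?_⟩
  intro T hT a haT haM ha
  set s : ℕ → B := NEW_it a with hs
  have hs0 : s 0 = a := rfl
  have hs1 : ∀ n, s (n + 1) = 3 * (s n * s n) - 2 * (s n * s n * s n) := fun n => rfl
  have hsT : ∀ n, s n ∈ T := by
    intro n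
    induction n with
    | zero => exact haT
    | succ n ih =>
      rw [hs1]
      have h3 : (3 : B) ∈ T := by
        have : (3 : B) = 1 + 1 + 1 := by norm_num
        rw [this]; exact T.add_mem (T.add_mem T.one_mem T.one_mem) T.one_mem
      have h2 : (2 : B) ∈ T := by
        have : (2 : B) = 1 + 1 := by norm_num
        rw [this]; exact T.add_mem T.one_mem T.one_mem
      exact T.sub_mem (T.mul_mem h3 (T.mul_mem ih ih)) (T.mul_mem h2 (T.mul_mem (T.mul_mem ih ih) ih))
  have main : ∀ n, ‖s n - s n * s n‖ ≤ δ * (1 / 2) ^ n ∧ ‖s n - a‖ ≤ 2 * K * δ * (1 - (1 / 2) ^ n) := by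
    intro n
    induction n with
    | zero =>
      rw [hs0, pow_zero, mul_one, sub_self, norm_zero, sub_self, mul_zero]
      refine ⟨?_, le_rfl⟩
      rw [norm_sub_rev]; exact ha
    | succ n ih =>
      obtain ⟨h1, h2⟩ := ih
      have hp : (0 : ℝ) < (1 / 2) ^ n := by positivity
      have hp1 : ((1 : ℝ) / 2) ^ n ≤ 1 := pow_le_one₀ (by norm_num) (by norm_num)
      have hy : ‖s n - s n * s n‖ ≤ 1 / 14 := by
        refine h1.trans ?_
        calc δ * (1 / 2) ^ n ≤ δ * 1 := mul_le_mul_of_nonneg_left hp1 hδpos.le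
          _ ≤ 1 / 14 := by rw [mul_one]; exact hδ1
      have hn1 : ‖s n - a‖ ≤ 1 := by
        refine h2.trans ?_
        calc 2 * K * δ * (1 - (1 / 2) ^ n) ≤ 2 * K * δ * 1 :=
              mul_le_mul_of_nonneg_left (by linarith) (by positivity)
          _ ≤ 1 := by rw [mul_one]; exact hδ2.trans (min_le_right _ _)
      have hn2 : ‖s n‖ ≤ max M 0 + 1 := by
        have : s n = (s n - a) + a := by abel
        rw [this]
        refine (norm_add_le _ _).trans ?_
        linarith [le_max_left M 0]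
      have hd : ‖s (n + 1) - s n‖ ≤ K * (δ * (1 / 2) ^ n) := by
        rw [hs1, NEW_step]
        calc ‖2 * (s n * (s n - s n * s n)) - (s n - s n * s n)‖
            ≤ ‖2 * (s n * (s n - s n * s n))‖ + ‖s n - s n * s n‖ := norm_sub_le _ _
          _ ≤ 2 * (‖s n‖ * ‖s n - s n * s n‖) + ‖s n - s n * s n‖ := by
              have := NEW_norm_two (s n * (s n - s n * s n))
              have := norm_mul_le (s n) (s n - s n * s n)
              linarith
          _ = (2 * ‖s n‖ + 1) * ‖s n - s n * s n‖ := by ring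
          _ ≤ K * (δ * (1 / 2) ^ n) := by
              refine mul_le_mul ?_ h1 (norm_nonneg _) hKpos.le
              rw [hK]; linarith
      refine ⟨?_, ?_⟩
      · rw [hs1, NEW_y]
        refine (NEW_half _ hy).trans ?_
        rw [pow_succ]
        linarith
      · have : s (n + 1) - a = (s (n + 1) - s n) + (s n - a) := by abel
        rw [this]
        refine (norm_add_le _ _).trans ?_
        rw [pow_succ]
        nlinarith
  have hcs : ∀ n, dist (s n) (s (n + 1)) ≤ K * δ * (1 / 2) ^ n := by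
    intro n
    obtain ⟨h1, h2⟩ := main n
    have hp : (0 : ℝ) < (1 / 2) ^ n := by positivity
    have hn1 : ‖s n - a‖ ≤ 1 := by
      refine h2.trans ?_
      calc 2 * K * δ * (1 - (1 / 2) ^ n) ≤ 2 * K * δ * 1 :=
            mul_le_mul_of_nonneg_left (by linarith) (by positivity)
        _ ≤ 1 := by rw [mul_one]; exact hδ2.trans (min_le_right _ _)
    have hn2 : ‖s n‖ ≤ max M 0 + 1 := by
      have : s n = (s n - a) + a := by abel
      rw [this]
      refine (norm_add_le _ _).trans ?_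
      linarith [le_max_left M 0]
    rw [dist_eq_norm, norm_sub_rev, hs1, NEW_step]
    calc ‖2 * (s n * (s n - s n * s n)) - (s n - s n * s n)‖
        ≤ ‖2 * (s n * (s n - s n * s n))‖ + ‖s n - s n * s n‖ := norm_sub_le _ _
      _ ≤ 2 * (‖s n‖ * ‖s n - s n * s n‖) + ‖s n - s n * s n‖ := by
          have := NEW_norm_two (s n * (s n - s n * s n))
          have := norm_mul_le (s n) (s n - s n * s n)
          linarith
      _ = (2 * ‖s n‖ + 1) * ‖s n - s n * s n‖ := by ring
      _ ≤ K * (δ * (1 / 2) ^ n) := by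
          refine mul_le_mul ?_ h1 (norm_nonneg _) hKpos.le
          rw [hK]; linarith
      _ = K * δ * (1 / 2) ^ n := by ring
  have hcauchy : CauchySeq s := cauchySeq_of_le_geometric (1 / 2) (K * δ) (by norm_num) hcs
  obtain ⟨e, he⟩ := cauchySeq_tendsto_of_complete hcauchy
  refine ⟨e, hT.mem_of_tendsto he (Eventually.of_forall hsT), ?_, ?_⟩
  · have h1 : Tendsto (fun n => s n - s n * s n) atTop (𝓝 (e - e * e)) := he.sub (he.mul he)
    have h2 : Tendsto (fun n => s n - s n * s n) atTop (𝓝 0) := by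
      apply squeeze_zero_norm (fun n => (main n).1)
      have := (tendsto_pow_atTop_nhds_zero_of_lt_one (r := (1 / 2 : ℝ)) (by norm_num)
        (by norm_num)).const_mul δ
      rwa [mul_zero] at this
    have h3 := tendsto_nhds_unique h1 h2
    exact (sub_eq_zero.1 h3).symm
  · have h1 : Tendsto (fun n => ‖s n - a‖) atTop (𝓝 ‖e - a‖) := (he.sub_const a).norm
    refine le_of_tendsto h1 (Eventually.of_forall fun n => ?_)
    refine (main n).2.trans ?_
    have hp : (0 : ℝ) < (1 / 2) ^ n := by positivity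
    calc 2 * K * δ * (1 - (1 / 2) ^ n) ≤ 2 * K * δ * 1 :=
          mul_le_mul_of_nonneg_left (by linarith) (by positivity)
      _ ≤ ε := by rw [mul_one]; exact hδ2.trans (min_le_left _ _)

end Pool.Agent.CZ
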